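import Pool.Agent.helper92.ISO.SpecG

set_option autoImplicit false

namespace Pool.Agent.ISO

open Pool.Agent.PB

theorem CMR_pair (R R' : ℕ) (a b : Fin R') (hab : a ≠ b) :
    (Finset.univ.filter fun g : Fin R' → Fin R => g a = g b).card * R ≤ Fintype.card (Fin R' → Fin R) := by
  have h1 : (Finset.univ.filter fun g : Fin R' → Fin R => g a = g b).card * R =
      ((Finset.univ.filter fun g : Fin R' → Fin R => g a = g b) ×ˢ (Finset.univ : Finset (Fin R))).card := by
    rw [Finset.card_product, Finset.card_univ, Fintype.card_fin]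
  rw [h1, ← Finset.card_univ]
  refine Finset.card_le_card_of_injOn (fun p => Function.update p.1 a p.2) (fun _ _ => Finset.mem_univ _) ?_
  rintro ⟨g, c⟩ hg ⟨g', c'⟩ hg' h
  simp only [Finset.coe_product, Set.mem_prod, Finset.mem_coe, Finset.mem_filter, Finset.mem_univ, true_and, and_true] at hg hg'
  simp only at h
  have hc : c = c' := by
    have := congrFun h a
    simpa using this
  have hg1 : ∀ x, x ≠ a → g x = g' x := by
    intro x hx
    have := congrFun h x
    rwa [Function.update_of_ne hx, Function.update_of_ne hx] at this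
  have hgg : g = g' := by
    funext x
    by_cases hx : x = a
    · rw [hx, hg, hg']
      exact hg1 b (Ne.symm hab)
    · exact hg1 x hx
  rw [hgg, hc]

theorem CMR_bad (R R' : ℕ) (K : Finset (Fin R')) :
    2 * ((Finset.univ.filter fun g : Fin R' → Fin R => ¬ Set.InjOn g (K : Set (Fin R'))).card * R) ≤
      K.card ^ 2 * Fintype.card (Fin R' → Fin R) := by
  have h1 : 2 * (Finset.univ.filter fun g : Fin R' → Fin R => ¬ Set.InjOn g (K : Set (Fin R'))).card ≤
      ∑ p ∈ K.offDiag, (Finset.univ.filter fun g : Fin R' → Fin R => g p.1 = g p.2).card := by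
    have h2 : ∑ p ∈ K.offDiag, (Finset.univ.filter fun g : Fin R' → Fin R => g p.1 = g p.2).card =
        ∑ g : Fin R' → Fin R, (K.offDiag.filter fun p => g p.1 = g p.2).card := by
      simp only [Finset.card_filter]
      rw [Finset.sum_comm]
    rw [h2, Finset.card_filter, Finset.mul_sum]
    refine Finset.sum_le_sum fun g _ => ?_
    by_cases hg : ¬ Set.InjOn g (K : Set (Fin R'))
    · rw [if_pos hg]
      unfold Set.InjOn at hg
      push Not at hg
      obtain ⟨a, ha, b, hb, hgab, hab⟩ := hg
      have hsub : ({(a, b), (b, a)} : Finset (Fin R' × Fin R')) ⊆ K.offDiag.filter fun p => g p.1 = g p.2 := by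
        intro p hp
        rw [Finset.mem_insert, Finset.mem_singleton] at hp
        rcases hp with rfl | rfl
        · rw [Finset.mem_filter, Finset.mem_offDiag]
          exact ⟨⟨ha, hb, hab⟩, hgab⟩
        · rw [Finset.mem_filter, Finset.mem_offDiag]
          exact ⟨⟨hb, ha, Ne.symm hab⟩, hgab.symm⟩
      have hcard : ({(a, b), (b, a)} : Finset (Fin R' × Fin R')).card = 2 := by
        rw [Finset.card_pair]
        intro h
        exact hab (Prod.ext_iff.1 h).1
      have := Finset.card_le_card hsub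
      omega
    · rw [if_neg hg]
      omega
  have h3 : ∑ p ∈ K.offDiag, (Finset.univ.filter fun g : Fin R' → Fin R => g p.1 = g p.2).card * R ≤
      ∑ p ∈ K.offDiag, Fintype.card (Fin R' → Fin R) := by
    refine Finset.sum_le_sum fun p hp => ?_
    rw [Finset.mem_offDiag] at hp
    exact CMR_pair R R' p.1 p.2 hp.2.2
  rw [Finset.sum_const, smul_eq_mul, ← Finset.sum_mul] at h3
  have h4 : K.offDiag.card ≤ K.card ^ 2 := by
    rw [Finset.offDiag_card, pow_two]
    exact Nat.sub_le _ _
  calc 2 * ((Finset.univ.filter fun g : Fin R' → Fin R => ¬ Set.InjOn g (K : Set (Fin R'))).card * R)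
      = (2 * (Finset.univ.filter fun g : Fin R' → Fin R => ¬ Set.InjOn g (K : Set (Fin R'))).card) * R := by ring
    _ ≤ (∑ p ∈ K.offDiag, (Finset.univ.filter fun g : Fin R' → Fin R => g p.1 = g p.2).card) * R := Nat.mul_le_mul_right R h1
    _ ≤ K.offDiag.card * Fintype.card (Fin R' → Fin R) := h3
    _ ≤ K.card ^ 2 * Fintype.card (Fin R' → Fin R) := Nat.mul_le_mul_right _ h4

theorem CMR_hit {R R' : ℕ} (κ : ℕ) (T : Finset (Fin R)) (g : Fin R' → Fin R) (K : Finset (Fin R'))
    (hg : Set.InjOn g (K : Set (Fin R'))) (h : Hit κ T (K.image g)) :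
    Hit κ (Finset.univ.filter fun x => g x ∈ T) K := by
  have h1 : (T ∩ K.image g).card = ((Finset.univ.filter fun x => g x ∈ T) ∩ K).card := by
    have h2 : T ∩ K.image g = ((Finset.univ.filter fun x => g x ∈ T) ∩ K).image g := by
      ext y
      simp only [Finset.mem_inter, Finset.mem_image, Finset.mem_filter, Finset.mem_univ, true_and]
      constructor
      · rintro ⟨hy, x, hx, rfl⟩
        exact ⟨x, ⟨hy, hx⟩, rfl⟩
      · rintro ⟨x, ⟨hy, hx⟩, rfl⟩
        exact ⟨hy, x, hx, rfl⟩
    rw [h2, Finset.card_image_of_injOn]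
    intro x hx y hy hxy
    rw [Finset.mem_coe, Finset.mem_inter] at hx hy
    exact hg hx.2 hy.2 hxy
  unfold Hit at h ⊢
  rwa [h1] at h

theorem CMR_proof : CMR_stmt := by
  intro m κ R R' q μ hR hμ hq
  have hne : Nonempty (Fin R' → Fin R) := ⟨fun _ => ⟨0, hR⟩⟩
  obtain ⟨N, hNdef⟩ : ∃ N : ℝ, N = (Fintype.card (Fin R' → Fin R) : ℝ) := ⟨_, rfl⟩
  have hN : 0 < N := by
    rw [hNdef]
    exact_mod_cast Fintype.card_pos
  have hR0 : (0 : ℝ) < R := by exact_mod_cast hR
  obtain ⟨μ', hμ'⟩ : ∃ μ' : Finset (Fin R) → ℝ, ∀ K', μ' K' = (∑ g : Fin R' → Fin R, ∑ K : Finset (Fin R'), if K.image g = K' then μ K else 0) / N :=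
    ⟨_, fun _ => rfl⟩
  have key : ∀ S : Finset (Finset (Fin R)), ∑ K' ∈ S, μ' K' =
      (∑ g : Fin R' → Fin R, ∑ K : Finset (Fin R'), if K.image g ∈ S then μ K else 0) / N := by
    intro S
    simp only [hμ']
    rw [← Finset.sum_div, Finset.sum_comm]
    congr 1
    refine Finset.sum_congr rfl fun g _ => ?_
    rw [Finset.sum_comm]
    refine Finset.sum_congr rfl fun K _ => ?_
    rw [Finset.sum_ite_eq]
  refine ⟨μ', ⟨?_, ?_, ?_⟩, ?_⟩
  · intro K'
    rw [hμ']
    refine div_nonneg (Finset.sum_nonneg fun g _ => Finset.sum_nonneg fun K _ => ?_) hN.le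
    split_ifs
    · exact hμ.nonneg K
    · exact le_rfl
  · intro K' hK'
    rw [hμ'] at hK'
    have h1 : (∑ g : Fin R' → Fin R, ∑ K : Finset (Fin R'), if K.image g = K' then μ K else 0) ≠ 0 := by
      intro h
      rw [h, zero_div] at hK'
      exact hK' rfl
    obtain ⟨g, _, hg⟩ := Finset.exists_ne_zero_of_sum_ne_zero h1
    obtain ⟨K, _, hK⟩ := Finset.exists_ne_zero_of_sum_ne_zero hg
    by_cases h2 : K.image g = K'
    · rw [if_pos h2] at hK
      obtain ⟨h3, h4⟩ := hμ.supp K hK
      rw [← h2]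
      refine ⟨?_, le_trans Finset.card_image_le h4⟩
      rw [Finset.one_le_card] at h3 ⊢
      exact h3.image g
    · rw [if_neg h2] at hK
      exact absurd rfl hK
  · rw [key]
    simp only [Finset.mem_univ, if_true]
    rw [hμ.sum, Finset.sum_const, nsmul_eq_mul, mul_one, Finset.card_univ, ← hNdef, div_self hN.ne']
  · intro T
    rw [key, div_le_iff₀ hN]
    have hstep : ∀ g : Fin R' → Fin R, (∑ K : Finset (Fin R'), if K.image g ∈ (Finset.univ.filter fun K' => Hit κ T K') then μ K else 0) ≤
        q + ∑ K : Finset (Fin R'), if ¬ Set.InjOn g (K : Set (Fin R')) then μ K else 0 := by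
      intro g
      have h1 := hq (Finset.univ.filter fun x => g x ∈ T)
      rw [Finset.sum_filter] at h1
      refine le_trans ?_ (add_le_add h1 le_rfl)
      rw [← Finset.sum_add_distrib]
      refine Finset.sum_le_sum fun K _ => ?_
      have h0 := hμ.nonneg K
      by_cases hinj : Set.InjOn g (K : Set (Fin R'))
      · rw [if_neg (not_not.2 hinj), add_zero]
        by_cases hh : Hit κ T (K.image g)
        · rw [if_pos (Finset.mem_filter.2 ⟨Finset.mem_univ _, hh⟩), if_pos (CMR_hit κ T g K hinj hh)]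
        · rw [if_neg (fun h => hh (Finset.mem_filter.1 h).2)]
          split_ifs
          · exact h0
          · exact le_rfl
      · rw [if_pos hinj]
        split_ifs <;> linarith
    have hsum : (∑ g : Fin R' → Fin R, ∑ K : Finset (Fin R'), if ¬ Set.InjOn g (K : Set (Fin R')) then μ K else 0) ≤
        (m : ℝ) ^ 2 / (2 * R) * N := by
      rw [Finset.sum_comm]
      have h2 : ∀ K : Finset (Fin R'), (∑ g : Fin R' → Fin R, if ¬ Set.InjOn g (K : Set (Fin R')) then μ K else 0) ≤
          μ K * ((m : ℝ) ^ 2 / (2 * R) * N) := by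
        intro K
        rw [← Finset.sum_filter, Finset.sum_const, nsmul_eq_mul, mul_comm]
        by_cases hK : μ K = 0
        · rw [hK, zero_mul, zero_mul]
        · obtain ⟨_, h4⟩ := hμ.supp K hK
          refine mul_le_mul_of_nonneg_left ?_ (hμ.nonneg K)
          have h5 := CMR_bad R R' K
          have h6 : (2 : ℝ) * (((Finset.univ.filter fun g : Fin R' → Fin R => ¬ Set.InjOn g (K : Set (Fin R'))).card : ℝ) * R) ≤
              (K.card : ℝ) ^ 2 * N := by
            rw [hNdef]
            exact_mod_cast h5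
          have h7 : (K.card : ℝ) ^ 2 ≤ (m : ℝ) ^ 2 := by
            have : (K.card : ℝ) ≤ m := by exact_mod_cast h4
            exact pow_le_pow_left₀ (Nat.cast_nonneg _) this 2
          have h8 : (K.card : ℝ) ^ 2 * N ≤ (m : ℝ) ^ 2 * N := mul_le_mul_of_nonneg_right h7 hN.le
          rw [div_mul_eq_mul_div, le_div_iff₀ (by positivity)]
          linarith
      refine le_trans (Finset.sum_le_sum fun K _ => h2 K) ?_
      rw [← Finset.sum_mul, hμ.sum, one_mul]
    refine le_trans (Finset.sum_le_sum fun g _ => hstep g) ?_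
    rw [Finset.sum_add_distrib, Finset.sum_const, nsmul_eq_mul, Finset.card_univ, ← hNdef, add_mul]
    linarith

end Pool.Agent.ISO
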